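import Pool.Agent.helper14.SCO.Spec

/-!
# Row sco:OMG
-/

set_option autoImplicit false

namespace Pool.Agent.SCO

open Pool.Agent.Scheepers Cardinal

/-- The points of stage at most `j`. -/
def OMG_X {ι : Type} (r : ι → ι → Prop) (G : ι → Sta) (j : ι) (z : ℕ → Bool) : Prop :=
  z ∈ D ∨ ∃ l, (r l j ∨ l = j) ∧ z = (G l).1

lemma OMG_mono {ι : Type} {r : ι → ι → Prop} [IsWellOrder ι r] {G : ι → Sta} {l j : ι} (h : r l j ∨ l = j)
    {z : ℕ → Bool} (hz : OMG_X r G l z) : OMG_X r G j z := by
  rcases hz with hz | ⟨m, hm, rfl⟩
  · left; exact hz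
  · right
    refine ⟨m, ?_, rfl⟩
    rcases h with h | rfl
    · rcases hm with hm | rfl
      · left; exact _root_.trans hm h
      · left; exact h
    · exact hm

lemma OMG_old {ι : Type} {r : ι → ι → Prop} [IsWellOrder ι r] {G : ι → Sta} {i j : ι} (hij : r i j)
    (B : Finset (ℕ → Bool)) (hB : ∀ a ∈ B, Old r j (fun l _ => G l) a) :
    ∃ l, r l j ∧ ∀ a ∈ B, OMG_X r G l a := by
  classical
  induction B using Finset.induction_on with
  | empty => exact ⟨i, hij, by simp⟩
  | insert b B _ ih =>
    obtain ⟨l, hl, hB'⟩ := ih (fun a ha => hB a (Finset.mem_insert_of_mem ha))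
    rcases hB b (Finset.mem_insert_self _ _) with hb | ⟨m, hm, hb⟩
    · refine ⟨l, hl, ?_⟩
      intro a ha
      rcases Finset.mem_insert.1 ha with rfl | ha
      · left; exact hb
      · exact hB' a ha
    · rcases trichotomous_of r l m with h | h | h
      · refine ⟨m, hm, ?_⟩
        intro a ha
        rcases Finset.mem_insert.1 ha with rfl | ha
        · right; exact ⟨m, Or.inr rfl, hb⟩
        · exact OMG_mono (Or.inl h) (hB' a ha)
      · refine ⟨m, hm, ?_⟩
        intro a ha
        rcases Finset.mem_insert.1 ha with rfl | ha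
        · right; exact ⟨m, Or.inr rfl, hb⟩
        · exact OMG_mono (Or.inr h) (hB' a ha)
      · refine ⟨l, hl, ?_⟩
        intro a ha
        rcases Finset.mem_insert.1 ha with rfl | ha
        · right; exact ⟨m, Or.inl h, hb⟩
        · exact hB' a ha

lemma OMG_all {ι : Type} {r : ι → ι → Prop} [IsWellOrder ι r] {G : ι → Sta} (i : ι)
    (A : Finset (ℕ → Bool)) (hA : ∀ a ∈ A, a ∈ D ∨ ∃ j, a = (G j).1) :
    ∃ l, ∀ a ∈ A, OMG_X r G l a := by
  classical
  induction A using Finset.induction_on with
  | empty => exact ⟨i, by simp⟩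
  | insert b B _ ih =>
    obtain ⟨l, hB'⟩ := ih (fun a ha => hA a (Finset.mem_insert_of_mem ha))
    rcases hA b (Finset.mem_insert_self _ _) with hb | ⟨m, hb⟩
    · refine ⟨l, ?_⟩
      intro a ha
      rcases Finset.mem_insert.1 ha with rfl | ha
      · left; exact hb
      · exact hB' a ha
    · rcases trichotomous_of r l m with h | h | h
      · refine ⟨m, ?_⟩
        intro a ha
        rcases Finset.mem_insert.1 ha with rfl | ha
        · right; exact ⟨m, Or.inr rfl, hb⟩
        · exact OMG_mono (Or.inl h) (hB' a ha)
      · refine ⟨m, ?_⟩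
        intro a ha
        rcases Finset.mem_insert.1 ha with rfl | ha
        · right; exact ⟨m, Or.inr rfl, hb⟩
        · exact OMG_mono (Or.inr h) (hB' a ha)
      · refine ⟨l, ?_⟩
        intro a ha
        rcases Finset.mem_insert.1 ha with rfl | ha
        · right; exact ⟨m, Or.inl h, hb⟩
        · exact hB' a ha

/-- Row OMG. -/
theorem OMG : OMG_stmt := by
  classical
  intro ι r _ W h U G hG i hU
  have hX : ∀ j z, OMG_X r G j z → z ∈ D ∨ ∃ j, z = (G j).1 := by
    intro j z hz
    rcases hz with hz | ⟨l, _, hz⟩
    · left; exact hz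
    · right; exact ⟨l, hz⟩
  have main : ∀ j : ι, ∀ A : Finset (ℕ → Bool), (∀ a ∈ A, OMG_X r G j a) →
      ∃ n, ∀ a ∈ A, a ∈ U i n ((G i).2.2 n) := by
    intro j
    induction j using (IsWellFounded.wf (r := r)).induction with
    | _ j ih =>
      intro A hA
      have hcase : r i j ∨ (r j i ∨ j = i) := by
        rcases trichotomous_of r i j with h | h | h
        · exact Or.inl h
        · exact Or.inr (Or.inr h.symm)
        · exact Or.inr (Or.inl h)
      rcases hcase with hij | hij
      · -- a late stage
        set B : Finset (ℕ → Bool) := A.filter (fun a => a ≠ (G j).1) with hBdef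
        have hB : ∀ a ∈ B, Old r j (fun l _ => G l) a := by
          intro a ha
          rw [hBdef, Finset.mem_filter] at ha
          rcases hA a ha.1 with h1 | ⟨l, hl, h1⟩
          · left; exact h1
          · rcases hl with hl | rfl
            · right; exact ⟨l, hl, h1⟩
            · exact absurd h1 ha.2
        have hD : D ⊆ Vst (U i) (G i).2.2 B := by
          intro d hd
          have hB' : ∀ a ∈ insert d B, Old r j (fun l _ => G l) a := by
            intro a ha
            rcases Finset.mem_insert.1 ha with rfl | ha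
            · left; exact hd
            · exact hB a ha
          obtain ⟨l, hl, hBl⟩ := OMG_old hij (insert d B) hB'
          obtain ⟨n, hn⟩ := ih l hl (insert d B) hBl
          exact ⟨n, fun a ha => hn a (Finset.mem_insert_of_mem ha), hn d (Finset.mem_insert_self _ _)⟩
        obtain ⟨n, hn1, hn2⟩ := (hG j).2.2.2.1 i hij B hB hD
        refine ⟨n, ?_⟩
        intro a ha
        by_cases h : a = (G j).1
        · rw [h]; exact hn2
        · exact hn1 a (by rw [hBdef, Finset.mem_filter]; exact ⟨ha, h⟩)
      · -- an early stage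
        have hk : ∀ z, Kno r i (fun j _ => G j) (G i) z ↔ OMG_X r G i z := by
          intro z
          constructor
          · rintro ((h1 | ⟨l, hl, h1⟩) | h1)
            · left; exact h1
            · right; exact ⟨l, Or.inl hl, h1⟩
            · right; exact ⟨i, Or.inr rfl, h1⟩
          · rintro (h1 | ⟨l, hl | rfl, h1⟩)
            · left; left; exact h1
            · left; right; exact ⟨l, hl, h1⟩
            · right; exact h1
        refine (hG i).2.2.2.2.2 ?_ A ?_
        · intro n A hA
          exact hU n A (fun a ha => hX i a ((hk a).1 (hA a ha)))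
        · intro a ha
          exact (hk a).2 (OMG_mono hij (hA a ha))
  intro A hA
  obtain ⟨l, hl⟩ := OMG_all (r := r) i A hA
  exact main l A hl

end Pool.Agent.SCO
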